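import Pool.Agent.ATP.Stmts
import Pool.Agent.Helper83_AT2.FRS
import Pool.Agent.Helper74_D2.Bld
import Pool.Agent.Helper66_PP.Pos1
import Pool.Agent.Helper74_PP.Orbit

/-!
# Squad ATP, row NP1: the unique stable block below a pair, normal case
-/

open scoped BigOperators

set_option linter.unusedSectionVars false

noncomputable section

namespace Pool.Agent.PP.TP.H95

open Pool.Agent.Helper51_AWC Pool.Agent.Helper79_WRA Pool.Agent.PP Pool.Agent.PP.KF
open Pool.Agent.PP.K9 Pool.Agent.PP.K9.H97 Pool.Agent.PP.H75 Pool.Agent.PP.T3 Pool.Agent.PP.T2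
open Pool.Agent.PP.TB

section tools

variable {F G : Type} [Field F] [Group G] [Finite G]

theorem fsum_mulF {ι : Type*} (s : Finset ι) (a : ι → G → F) (c : G → F) :
    mulF (∑ i ∈ s, a i) c = ∑ i ∈ s, mulF (a i) c := by
  classical
  induction s using Finset.induction_on with
  | empty => simp [H20.zero_mulF]
  | insert i s hi ih => rw [Finset.sum_insert hi, Finset.sum_insert hi, H20.add_mulF, ih]

/-- The blocks of a subgroup sum to the identity. -/
theorem sum_blocks (C : Subgroup G) [Fintype {b : G → F // Bx C b}] :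
    ∑ b : {b : G → F // Bx C b}, b.1 = dl F 1 := by
  classical
  obtain ⟨m, f, hf, ho, hs⟩ := CD2.H74.dec (dl F (1 : C)) H46.isIdem_one
  have hres : ∀ t, (fun x : C => ext0 C (f t) x) = f t := fun t => funext (ext0_apply C (f t))
  have hbx : ∀ t, Bx C (ext0 C (f t)) := fun t => ⟨ext0_supp C (f t), by rw [hres]; exact (hf t).1⟩
  let φ : Fin m → {b : G → F // Bx C b} := fun t => ⟨ext0 C (f t), hbx t⟩
  have hφ : Function.Bijective φ := by
    constructor
    · intro t s hts
      by_contra hne
      have h1 : f t = f s := by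
        rw [← hres t, ← hres s]
        have h2 : ext0 C (f t) = ext0 C (f s) := congrArg Subtype.val hts
        rw [h2]
      have h3 := ho t s hne
      rw [← h1, (hf t).1.1.2] at h3
      exact (hf t).1.2.1 h3
    · rintro ⟨b, hb⟩
      have hb' : IsBlk (fun x : C => b x) := hb.blk
      have h1 : ∑ t, mulF (f t) (fun x : C => b x) = fun x : C => b x := by
        rw [← fsum_mulF, hs, H46.one_mulF]
      obtain ⟨t, ht⟩ : ∃ t, mulF (f t) (fun x : C => b x) ≠ 0 := by
        by_contra hcon
        push Not at hcon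
        apply hb'.2.1
        rw [← h1]
        exact Finset.sum_eq_zero fun t _ => hcon t
      refine ⟨t, Subtype.ext ?_⟩
      have h2 : f t = fun x : C => b x := by
        rcases (hf t).1.2.2 _ hb'.1 with h3 | h3
        · rcases hb'.2.2 _ (hf t).1.1 with h4 | h4
          · exact h3.symm.trans ((H46.mulF_comm (hf t).1.1.1 _).trans h4)
          · exfalso
            apply ht
            rw [H46.mulF_comm (hf t).1.1.1, h4]
        · exact absurd h3 ht
      exact eq_of_res (hbx t).supp hb.supp (by rw [hres, h2])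
  rw [← hφ.sum_comp (fun b => b.1)]
  funext x
  rw [Finset.sum_apply]
  by_cases hx : x ∈ C
  · have h1 : ∀ t, (φ t).1 x = f t ⟨x, hx⟩ := fun t => by
      change ext0 C (f t) x = _
      rw [ext0, dif_pos hx]
    simp only [h1]
    have h2 := congrFun hs ⟨x, hx⟩
    rw [Finset.sum_apply] at h2
    rw [h2]
    unfold dl
    by_cases h3 : x = 1
    · rw [if_pos h3, if_pos (Subtype.ext h3)]
    · rw [if_neg h3, if_neg]
      intro h4
      exact h3 (congrArg Subtype.val h4)
  · have h1 : ∀ t, (φ t).1 x = 0 := fun t => (hbx t).supp x hx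
    simp only [h1]
    unfold dl
    rw [if_neg, Finset.sum_const_zero]
    intro h3
    rw [h3] at hx
    exact hx C.one_mem

theorem cent_normalizes {Q P : Subgroup G} (hPN : P ≤ Subgroup.normalizer (Q : Set G)) {x : G}
    (hx : x ∈ P) : x ∈ Subgroup.normalizer (Subgroup.centralizer (Q : Set G) : Set G) := by
  have hxN := Subgroup.mem_normalizer_iff.1 (hPN hx)
  rw [Subgroup.mem_normalizer_iff]
  intro y
  rw [Subgroup.mem_centralizer_iff, Subgroup.mem_centralizer_iff]
  constructor
  · intro h q hq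
    have h1 : x⁻¹ * q * x ∈ Q := by
      have := (hxN (x⁻¹ * q * x)).2 (by
        rw [show x * (x⁻¹ * q * x) * x⁻¹ = q by group]; exact hq)
      exact this
    have h2 := h _ h1
    have h3 : x * (x⁻¹ * q * x * y) * x⁻¹ = x * (y * (x⁻¹ * q * x)) * x⁻¹ := by rw [h2]
    calc q * (x * y * x⁻¹) = x * (x⁻¹ * q * x * y) * x⁻¹ := by group
      _ = x * (y * (x⁻¹ * q * x)) * x⁻¹ := h3
      _ = x * y * x⁻¹ * q := by group
  · intro h q hq
    have h1 : x * q * x⁻¹ ∈ Q := (hxN q).1 hq
    have h2 := h _ h1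
    have h3 : x⁻¹ * (x * q * x⁻¹ * (x * y * x⁻¹)) * x =
        x⁻¹ * (x * y * x⁻¹ * (x * q * x⁻¹)) * x := by rw [h2]
    calc q * y = x⁻¹ * (x * q * x⁻¹ * (x * y * x⁻¹)) * x := by group
      _ = x⁻¹ * (x * y * x⁻¹ * (x * q * x⁻¹)) * x := h3
      _ = y * q := by group

theorem inv_of_cj {P : Subgroup G} {b : G → F} (h : ∀ x ∈ P, cj x b = b) : H66.Inv P b := by
  intro p hp t
  exact (cj_eq_iff p b).1 (h p hp) t

/-- the Brauer image of an invariant block -/
theorem ix_br {ℓ : ℕ} (hF : GoodF ℓ F) {Q P : Subgroup G} (hP : IsPGroup ℓ P) (hQP : Q ≤ P)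
    {b : G → F} (hb : Bx (Subgroup.centralizer (Q : Set G)) b) (hi : ∀ x ∈ P, cj x b = b) :
    Ix (Subgroup.centralizer (P : Set G)) (br P b) := by
  have hsupp : ∀ x, x ∉ Subgroup.centralizer (P : Set G) → br P b x = 0 := fun x hx => br_out b hx
  refine ⟨hsupp, ?_, ?_⟩
  · intro x y
    have hx := x.2
    have hy := y.2
    have h1 : ((y * x * y⁻¹ : Subgroup.centralizer (P : Set G)) : G) ∈
      Subgroup.centralizer (P : Set G) := (y * x * y⁻¹).2
    change br P b ((y * x * y⁻¹ : Subgroup.centralizer (P : Set G)) : G) = br P b x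
    rw [br_in b h1, br_in b hx]
    have hle : Subgroup.centralizer (P : Set G) ≤ Subgroup.centralizer (Q : Set G) :=
      Subgroup.centralizer_le hQP
    exact hb.blk.1.1 ⟨x, hle hx⟩ ⟨y, hle hy⟩
  · rw [← mulF_res _ _ hsupp, ← H66.br_mulF hF hP (inv_of_cj hi) (inv_of_cj hi), hb.mul]

end tools

theorem np1 : Np1Stmt := by
  classical
  intro ℓ F _ hF G _ _ Q P hP hQP hPN c hc
  have hlp : Fact ℓ.Prime := ⟨hF.prime⟩
  have hch := hF.char
  have huniq : ∀ b b' : G → F, Bx (Subgroup.centralizer (Q : Set G)) b → Nl Q b P c →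
      Bx (Subgroup.centralizer (Q : Set G)) b' → Nl Q b' P c → b' = b := by
    intro b b' hb hn hb' hn'
    rcases hb'.dich hb with h | h
    · exact h
    · exfalso
      have h1 : br P (mulF b' b) = mulF (br P b') (br P b) :=
        H66.br_mulF hF hP (inv_of_cj hn'.inv) (inv_of_cj hn.inv)
      have h2 : mulF (br P (mulF b' b)) c = c := by
        rw [h1, H20.mulF_assoc, hn.und, hn'.und]
      rw [h] at h2
      have h3 : br P (0 : G → F) = 0 := by
        funext t
        by_cases ht : t ∈ Subgroup.centralizer (P : Set G)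
        · rw [br_in _ ht]
        · rw [br_out _ ht]; rfl
      rw [h3, H20.zero_mulF] at h2
      exact hc.ne h2.symm
  -- existence
  let X := Subgroup.centralizer (Q : Set G)
  let T := {b : G → F // Bx X b}
  have hTfin : Finite T := (H83.bx_finite (F := F) X).to_subtype
  let _ : Fintype T := Fintype.ofFinite T
  let _ : MulAction P T :=
    { smul := fun r b => ⟨cj (r : G) b.1, b.2.cj (cent_normalizes hPN r.2)⟩
      one_smul := fun b => Subtype.ext (cj_one b.1)
      mul_smul := fun r s b => Subtype.ext (cj_cj (r : G) (s : G) b.1).symm }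
  have hsm : ∀ (r : P) (b : T), ((r • b : T) : G → F) = cj (r : G) b.1 := fun _ _ => rfl
  have hsum : ∀ t, t ∈ Subgroup.centralizer (P : Set G) →
      ∑ b : T, b.1 t = ∑ b : T with (∀ r : P, r • b = b), b.1 t := by
    intro t ht
    refine H74.orbit_sum_ring (T := T) hP (fun b => b.1 t) ?_
    intro r b
    rw [hsm]
    change b.1 ((r : G)⁻¹ * t * r) = b.1 t
    have := Subgroup.mem_centralizer_iff.1 ht r r.2
    rw [mul_assoc, ← this, inv_mul_cancel_left]
  have hbr : ∑ b : T with (∀ r : P, r • b = b), br P b.1 = dl F 1 := by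
    funext t
    rw [Finset.sum_apply]
    by_cases ht : t ∈ Subgroup.centralizer (P : Set G)
    · simp only [br_in _ ht]
      rw [← hsum t ht, ← sum_blocks (F := F) X, Finset.sum_apply]
    · simp only [br_out _ ht]
      unfold dl
      rw [if_neg, Finset.sum_const_zero]
      intro h3
      rw [h3] at ht
      exact ht (Subgroup.one_mem _)
  have hc1 : ∑ b : T with (∀ r : P, r • b = b), mulF (br P b.1) c = c := by
    rw [← fsum_mulF, hbr, H46.one_mulF]
  obtain ⟨b, hbm, hb0⟩ : ∃ b ∈ (Finset.univ : Finset T).filter (fun b => ∀ r : P, r • b = b),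
      mulF (br P b.1) c ≠ 0 := by
    by_contra hcon
    push Not at hcon
    apply hc.ne
    rw [← hc1]
    exact Finset.sum_eq_zero hcon
  have hfix : ∀ x ∈ P, cj x b.1 = b.1 := by
    intro x hx
    have := (Finset.mem_filter.1 hbm).2 ⟨x, hx⟩
    exact congrArg Subtype.val this
  have hix := ix_br hF hP hQP b.2 hfix
  have hund : mulF (br P b.1) c = c := by
    rcases hc.dich' hix with h | h
    · rw [hix.comm hc.ix]
      exact h
    · exfalso
      apply hb0
      rw [hix.comm hc.ix]
      exact h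
  have hnl : Nl Q b.1 P c := ⟨hQP, hPN, hfix, hund⟩
  exact ⟨b.1, b.2, hnl, fun b' hb' hn' => huniq b.1 b' b.2 hnl hb' hn'⟩

end Pool.Agent.PP.TP.H95
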